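import Pool.Agent.H69.LNN.Targets

set_option autoImplicit false

/-!
# LNN, row FC: the cutoff functions
-/

open MeasureTheory Metric Set
open scoped ENNReal

open Pool.Agent.H85.LK (E adm lam Ann)
open Pool.Agent.H69.LQ Pool.Agent.H69.LNN

namespace Pool.Agent.H64.LNN

/-- a smooth step with a small derivative -/
theorem step : ∃ F : ℝ → ℝ, ContDiff ℝ (⊤ : ℕ∞) F ∧ (∀ t, t ≤ 0 → F t = 0) ∧
    (∀ t, 1 ≤ t → F t = 1) ∧ ∀ t, |deriv F t| ≤ 2 := by
  let b : ContDiffBump (1 / 2 : ℝ) := ⟨1 / 4, 1 / 2, by norm_num, by norm_num⟩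
  have hbs : ContDiff ℝ (⊤ : ℕ∞) b := b.contDiff
  have hbc : Continuous b := hbs.continuous
  have hb0 : ∀ t, 0 ≤ b t := fun t => b.nonneg
  have hb1 : ∀ t, b t ≤ 1 := fun t => b.le_one
  have hbz : ∀ t : ℝ, t ≤ 0 ∨ 1 ≤ t → b t = 0 := by
    intro t ht
    apply b.zero_of_le_dist
    change 1 / 2 ≤ dist t (1 / 2)
    rw [Real.dist_eq]
    rcases ht with h | h
    · rw [abs_of_nonpos (by linarith)]
      linarith
    · rw [abs_of_nonneg (by linarith)]
      linarith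
  have hbo : ∀ t : ℝ, 1 / 4 ≤ t → t ≤ 3 / 4 → b t = 1 := by
    intro t h1 h2
    apply b.one_of_mem_closedBall
    change dist t (1 / 2) ≤ 1 / 4
    rw [Real.dist_eq, abs_le]
    constructor <;> linarith
  have hii : ∀ p q : ℝ, IntervalIntegrable b volume p q := fun p q => hbc.intervalIntegrable p q
  obtain ⟨Z, hZ⟩ : ∃ Z : ℝ, Z = ∫ x in (0 : ℝ)..1, b x := ⟨_, rfl⟩
  have hZ1 : 1 / 2 ≤ Z := by
    have e1 : Z = (∫ x in (0 : ℝ)..(1 / 4), b x) + (∫ x in (1 / 4 : ℝ)..(3 / 4), b x) +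
        ∫ x in (3 / 4 : ℝ)..1, b x := by
      rw [hZ, intervalIntegral.integral_add_adjacent_intervals (hii _ _) (hii _ _),
        intervalIntegral.integral_add_adjacent_intervals (hii _ _) (hii _ _)]
    have e2 : (∫ x in (1 / 4 : ℝ)..(3 / 4), b x) = 1 / 2 := by
      have : (∫ x in (1 / 4 : ℝ)..(3 / 4), b x) = ∫ x in (1 / 4 : ℝ)..(3 / 4), (1 : ℝ) := by
        apply intervalIntegral.integral_congr
        intro x hx
        rw [uIcc_of_le (by norm_num)] at hx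
        exact hbo x hx.1 hx.2
      rw [this, intervalIntegral.integral_const]
      norm_num
    have e3 : 0 ≤ ∫ x in (0 : ℝ)..(1 / 4), b x :=
      intervalIntegral.integral_nonneg (by norm_num) fun x _ => hb0 x
    have e4 : 0 ≤ ∫ x in (3 / 4 : ℝ)..1, b x :=
      intervalIntegral.integral_nonneg (by norm_num) fun x _ => hb0 x
    rw [e1, e2]
    linarith
  have hZ0 : 0 < Z := by linarith
  obtain ⟨F, hF⟩ : ∃ F : ℝ → ℝ, F = fun t => (∫ x in (0 : ℝ)..t, b x) / Z := ⟨_, rfl⟩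
  have hder : ∀ t, HasDerivAt F (b t / Z) t := by
    intro t
    rw [hF]
    exact (intervalIntegral.integral_hasDerivAt_right (hii 0 t)
      hbc.aestronglyMeasurable.stronglyMeasurableAtFilter hbc.continuousAt).div_const Z
  have hdF : deriv F = fun t => b t / Z := funext fun t => (hder t).deriv
  refine ⟨F, ?_, ?_, ?_, ?_⟩
  · rw [contDiff_infty_iff_deriv]
    refine ⟨fun t => (hder t).differentiableAt, ?_⟩
    rw [hdF]
    exact hbs.div_const Z
  · intro t ht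
    rw [hF]
    have : (∫ x in (0 : ℝ)..t, b x) = ∫ x in (0 : ℝ)..t, (0 : ℝ) := by
      apply intervalIntegral.integral_congr
      intro x hx
      rw [uIcc_of_ge ht] at hx
      exact hbz x (Or.inl hx.2)
    simp only [this, intervalIntegral.integral_zero, zero_div]
  · intro t ht
    rw [hF]
    have h1 : (∫ x in (0 : ℝ)..t, b x) = Z + ∫ x in (1 : ℝ)..t, b x := by
      rw [hZ, intervalIntegral.integral_add_adjacent_intervals (hii _ _) (hii _ _)]
    have h2 : (∫ x in (1 : ℝ)..t, b x) = ∫ x in (1 : ℝ)..t, (0 : ℝ) := by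
      apply intervalIntegral.integral_congr
      intro x hx
      rw [uIcc_of_le ht] at hx
      exact hbz x (Or.inr hx.1)
    simp only [h1, h2, intervalIntegral.integral_zero, add_zero]
    exact div_self hZ0.ne'
  · intro t
    rw [hdF]
    simp only []
    rw [abs_of_nonneg (div_nonneg (hb0 t) hZ0.le), div_le_iff₀ hZ0]
    linarith [hb1 t]

/-- the cutoff functions -/
theorem cut (N : ℕ) (hN : 1 ≤ N) : ∃ χ η : E N → ℝ, ContDiff ℝ (⊤ : ℕ∞) χ ∧
    ContDiff ℝ (⊤ : ℕ∞) η ∧ (∀ x, χ x ^ 2 + η x ^ 2 = 1) ∧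
    (∀ x, ‖x‖ ≤ 1 + 1 / Real.sqrt N → χ x = 1 ∧ η x = 0) ∧ (∀ x, bb N ≤ ‖x‖ → χ x = 0) ∧
    ∀ x, ‖fderiv ℝ χ x‖ ^ 2 + ‖fderiv ℝ η x‖ ^ 2 ≤ N / 8 := by
  obtain ⟨F, hFs, hF0, hF1, hF2⟩ := step
  have hNp : (0 : ℝ) < N := by exact_mod_cast hN
  have hs : 0 < Real.sqrt N := Real.sqrt_pos.2 hNp
  have hs2 : Real.sqrt N ^ 2 = N := Real.sq_sqrt hNp.le
  obtain ⟨h, hh⟩ : ∃ h : ℝ, h = 1 / Real.sqrt N := ⟨_, rfl⟩
  have hhp : 0 < h := by rw [hh]; positivity
  have hbb : bb N = 1 + 20 * h := by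
    unfold bb
    rw [hh]
    ring
  obtain ⟨c, hc⟩ : ∃ c : ℝ, c = 1 + h := ⟨_, rfl⟩
  obtain ⟨d, hd⟩ : ∃ d : ℝ, d = 1 + 20 * h := ⟨_, rfl⟩
  have hdc : d ^ 2 - c ^ 2 = 19 * h * (2 + 21 * h) := by
    rw [hd, hc]
    ring
  have hdc0 : 0 < d ^ 2 - c ^ 2 := by
    rw [hdc]
    positivity
  have hc0 : 0 < c := by
    rw [hc]
    positivity
  have hd0 : 0 < d := by
    rw [hd]
    positivity
  obtain ⟨s, hsd⟩ : ∃ s : E N → ℝ, s = fun x => (‖x‖ ^ 2 - c ^ 2) / (d ^ 2 - c ^ 2) := ⟨_, rfl⟩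
  have hss : ContDiff ℝ (⊤ : ℕ∞) s := by
    rw [hsd]
    exact ((contDiff_norm_sq ℝ).sub contDiff_const).div_const _
  have hs0 : ∀ x, ‖x‖ ≤ c → s x ≤ 0 := by
    intro x hx
    rw [hsd]
    apply div_nonpos_of_nonpos_of_nonneg _ hdc0.le
    have := pow_le_pow_left₀ (norm_nonneg x) hx 2
    linarith
  have hs1 : ∀ x, d ≤ ‖x‖ → 1 ≤ s x := by
    intro x hx
    rw [hsd]
    simp only []
    rw [le_div_iff₀ hdc0, one_mul]
    have := pow_le_pow_left₀ hd0.le hx 2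
    linarith
  obtain ⟨ψ, hψ⟩ : ∃ ψ : E N → ℝ, ψ = fun x => Real.pi / 2 * F (s x) := ⟨_, rfl⟩
  have hψs : ContDiff ℝ (⊤ : ℕ∞) ψ := by
    rw [hψ]
    exact contDiff_const.mul (hFs.comp hss)
  have hψd : ∀ x, HasFDerivAt ψ (fderiv ℝ ψ x) x := fun x =>
    (hψs.differentiable (by simp)).differentiableAt.hasFDerivAt
  have hψn : ∀ x, ‖fderiv ℝ ψ x‖ ^ 2 ≤ N / 8 := by
    intro x
    have e1 : HasFDerivAt s ((d ^ 2 - c ^ 2)⁻¹ • ((2 : ℕ) • (innerSL ℝ x))) x := by
      rw [hsd]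
      have e2 : HasFDerivAt (fun x : E N => ‖x‖ ^ 2) ((2 : ℕ) • (innerSL ℝ x)) x :=
        (hasStrictFDerivAt_norm_sq x).hasFDerivAt
      have e3 := (e2.sub_const (c ^ 2)).const_mul ((d ^ 2 - c ^ 2)⁻¹)
      refine e3.congr_of_eventuallyEq (Filter.Eventually.of_forall fun z => ?_)
      simp only []
      rw [div_eq_inv_mul]
    have e4 : HasFDerivAt ψ ((Real.pi / 2) • (deriv F (s x) •
        ((d ^ 2 - c ^ 2)⁻¹ • ((2 : ℕ) • (innerSL ℝ x))))) x := by
      rw [hψ]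
      have e5 : HasDerivAt F (deriv F (s x)) (s x) :=
        (hFs.differentiable (by simp)).differentiableAt.hasDerivAt
      exact (e5.comp_hasFDerivAt x e1).const_mul _
    rw [e4.fderiv]
    have e6 : ‖(Real.pi / 2) • (deriv F (s x) •
        ((d ^ 2 - c ^ 2)⁻¹ • ((2 : ℕ) • (innerSL ℝ x))))‖ ≤
        Real.pi / 2 * (|deriv F (s x)| * ((d ^ 2 - c ^ 2)⁻¹ * (2 * ‖x‖))) := by
      rw [norm_smul, norm_smul, norm_smul, Real.norm_of_nonneg (by positivity), Real.norm_eq_abs,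
        Real.norm_of_nonneg (by positivity)]
      have e7 : ‖(2 : ℕ) • (innerSL ℝ x)‖ ≤ 2 * ‖x‖ := by
        refine (norm_nsmul_le).trans ?_
        rw [innerSL_apply_norm]
        norm_num
      gcongr
    have e8 : Real.pi / 2 * (|deriv F (s x)| * ((d ^ 2 - c ^ 2)⁻¹ * (2 * ‖x‖))) ≤
        2 * Real.pi / (19 * h) := by
      by_cases hx : ‖x‖ ≤ d
      · have e9 : Real.pi / 2 * (|deriv F (s x)| * ((d ^ 2 - c ^ 2)⁻¹ * (2 * ‖x‖))) ≤
            Real.pi / 2 * (2 * ((d ^ 2 - c ^ 2)⁻¹ * (2 * d))) := by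
          have := hF2 (s x)
          have hi : 0 ≤ (d ^ 2 - c ^ 2)⁻¹ := by positivity
          gcongr
        refine e9.trans ?_
        have e10 : Real.pi / 2 * (2 * ((d ^ 2 - c ^ 2)⁻¹ * (2 * d))) =
            Real.pi * (2 * d) / (19 * h * (2 + 21 * h)) := by
          rw [hdc]
          field_simp
        rw [e10, div_le_div_iff₀ (by positivity) (by positivity), hd]
        have hpi := Real.pi_pos
        have : 0 ≤ 2 * Real.pi * h * (19 * h * 2) := by positivity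
        nlinarith [mul_pos hpi hhp, mul_pos (mul_pos hpi hhp) hhp]
      · have hx' : d < ‖x‖ := lt_of_not_ge hx
        have e9 : deriv F (s x) = 0 := by
          have e10 : F =ᶠ[nhds (s x)] fun _ => 1 := by
            have e11 : 1 < s x := by
              rw [hsd]
              simp only []
              rw [lt_div_iff₀ hdc0, one_mul]
              have := pow_lt_pow_left₀ hx' hd0.le (n := 2) (by norm_num)
              linarith
            filter_upwards [lt_mem_nhds e11] with z hz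
            exact hF1 z hz.le
          rw [e10.deriv_eq]
          simp
        rw [e9, abs_zero, zero_mul, mul_zero]
        positivity
    have e12 := pow_le_pow_left₀ (norm_nonneg _) (e6.trans e8) 2
    refine e12.trans ?_
    have e13 : (2 * Real.pi / (19 * h)) ^ 2 = 4 * Real.pi ^ 2 / 361 * N := by
      have e14 : (2 * Real.pi / (19 * h)) ^ 2 = 4 * Real.pi ^ 2 / 361 * Real.sqrt N ^ 2 := by
        rw [hh]
        field_simp
        ring
      rw [e14, hs2]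
    rw [e13]
    have hpi : Real.pi ^ 2 ≤ 3.15 ^ 2 := by
      have := Real.pi_lt_d2
      have := Real.pi_pos
      gcongr
    have : 4 * Real.pi ^ 2 / 361 ≤ 1 / 8 := by
      rw [div_le_iff₀ (by norm_num)]
      norm_num at hpi ⊢
      linarith
    calc 4 * Real.pi ^ 2 / 361 * N ≤ 1 / 8 * N := mul_le_mul_of_nonneg_right this hNp.le
      _ = N / 8 := by ring
  refine ⟨fun x => Real.cos (ψ x), fun x => Real.sin (ψ x), Real.contDiff_cos.comp hψs,
    Real.contDiff_sin.comp hψs, fun x => Real.cos_sq_add_sin_sq _, ?_, ?_, ?_⟩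
  · intro x hx
    rw [← hh, ← hc] at hx
    have : ψ x = 0 := by
      rw [hψ]
      simp only [hF0 _ (hs0 x hx), mul_zero]
    simp only [this, Real.cos_zero, Real.sin_zero, and_self]
  · intro x hx
    rw [hbb, ← hd] at hx
    have : ψ x = Real.pi / 2 := by
      rw [hψ]
      simp only [hF1 _ (hs1 x hx), mul_one]
    simp only [this, Real.cos_pi_div_two]
  · intro x
    have e1 : fderiv ℝ (fun x => Real.cos (ψ x)) x = -Real.sin (ψ x) • fderiv ℝ ψ x :=
      (hψd x).cos.fderiv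
    have e2 : fderiv ℝ (fun x => Real.sin (ψ x)) x = Real.cos (ψ x) • fderiv ℝ ψ x :=
      (hψd x).sin.fderiv
    rw [e1, e2, norm_smul, norm_smul, mul_pow, mul_pow, Real.norm_eq_abs, Real.norm_eq_abs,
      sq_abs, sq_abs]
    have e3 : (-Real.sin (ψ x)) ^ 2 * ‖fderiv ℝ ψ x‖ ^ 2 +
        Real.cos (ψ x) ^ 2 * ‖fderiv ℝ ψ x‖ ^ 2 = ‖fderiv ℝ ψ x‖ ^ 2 := by
      have := Real.sin_sq_add_cos_sq (ψ x)
      calc _ = (Real.sin (ψ x) ^ 2 + Real.cos (ψ x) ^ 2) * ‖fderiv ℝ ψ x‖ ^ 2 := by ring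
        _ = _ := by rw [this, one_mul]
    rw [e3]
    exact hψn x

end Pool.Agent.H64.LNN
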