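import Pool.Agent.H69.LQ.Lib
import Pool.Agent.H64.LNN.FCa
import Pool.Agent.H85.LNN.ASM2

set_option autoImplicit false

/-!
# LNN, row FC: removal of the far part
-/

open MeasureTheory Metric Set
open scoped ENNReal

open Pool.Agent.H85.LK (E adm lam Ann)
open Pool.Agent.H69.LQ Pool.Agent.H69.LNN

namespace Pool.Agent.H64.LNN

theorem int_sq {N : ℕ} {f : E N → ℝ} (hf : ContDiff ℝ (⊤ : ℕ∞) f)
    (hc : HasCompactSupport f) : Integrable (fun x => f x ^ 2) := by
  apply Continuous.integrable_of_hasCompactSupport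
  · exact hf.continuous.pow 2
  · exact hc.comp_left (g := fun t : ℝ => t ^ 2) (by norm_num)

theorem int_grad {N : ℕ} {f : E N → ℝ} (hf : ContDiff ℝ (⊤ : ℕ∞) f)
    (hc : HasCompactSupport f) : Integrable (fun x => ‖fderiv ℝ f x‖ ^ 2) := by
  apply Continuous.integrable_of_hasCompactSupport
  · exact (hf.continuous_fderiv (by simp)).norm.pow 2
  · exact (hc.fderiv (𝕜 := ℝ)).comp_left (g := fun t => ‖t‖ ^ 2) (by simp)

/-- a function constant on an open set has derivative zero there -/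
theorem fderiv_zero {N : ℕ} {f : E N → ℝ} {U : Set (E N)} {c : ℝ} (hU : IsOpen U)
    (h : ∀ x ∈ U, f x = c) {x : E N} (hx : x ∈ U) : fderiv ℝ f x = 0 := by
  have h1 : f =ᶠ[nhds x] fun _ => c := Filter.eventually_of_mem (hU.mem_nhds hx) h
  rw [h1.fderiv_eq]
  simp

/-- the numbers -/
theorem numb {N : ℕ} {L lB : ℝ} (hN : 16 ≤ N) (hL : (N : ℝ) ^ 2 / 4 ≤ L)
    (hB : L ≤ (1 + 4 * ((N : ℝ) - 1) / ((N : ℝ) - 2) ^ 2) * lB) :
    L + 9 * N / 8 ≤ lB / Real.exp (-7 / N) ^ 2 := by
  have hn : (16 : ℝ) ≤ N := by exact_mod_cast hN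
  have hn0 : (0 : ℝ) < N := by linarith
  obtain ⟨e, he⟩ : ∃ e : ℝ, e = 4 * ((N : ℝ) - 1) / ((N : ℝ) - 2) ^ 2 := ⟨_, rfl⟩
  have he0 : 0 ≤ e := by
    rw [he]
    apply div_nonneg _ (sq_nonneg _)
    linarith
  have he1 : e ≤ 5 / N := by
    rw [he, div_le_div_iff₀ (by nlinarith) hn0]
    nlinarith
  have he2 : e ≤ 1 := by
    refine he1.trans ?_
    rw [div_le_one hn0]
    linarith
  rw [← he] at hB
  have hL0 : 0 < L := lt_of_lt_of_le (by positivity) hL
  have hlB : 0 < lB := by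
    by_contra hcon
    push Not at hcon
    have : (1 + e) * lB ≤ 0 := mul_nonpos_of_nonneg_of_nonpos (by linarith) hcon
    linarith
  have hexp : 1 + 14 / N ≤ (Real.exp (-7 / N) ^ 2)⁻¹ := by
    have h1 : (Real.exp (-7 / N) ^ 2)⁻¹ = Real.exp (14 / N) := by
      rw [← Real.exp_nat_mul, ← Real.exp_neg]
      congr 1
      push_cast
      ring
    rw [h1]
    have := Real.add_one_le_exp (14 / (N : ℝ))
    linarith
  rw [div_eq_mul_inv]
  have h2 : lB * (1 + 14 / N) ≤ lB * (Real.exp (-7 / N) ^ 2)⁻¹ :=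
    mul_le_mul_of_nonneg_left hexp hlB.le
  refine le_trans ?_ h2
  -- `(1 + e) (L + 9 N / 8) ≤ (1 + e) lB (1 + 14 / N)`
  have h3 : (1 + e) * (L + 9 * N / 8) ≤ L * (1 + 14 / N) := by
    have h4 : L * (1 + 14 / N) - (1 + e) * (L + 9 * N / 8) =
        (14 / N - e) * L - (1 + e) * (9 * N / 8) := by ring
    have h5 : 9 / N ≤ 14 / N - e := by
      have : (14 : ℝ) / N = 9 / N + 5 / N := by ring
      linarith
    have h6 : 9 / N * ((N : ℝ) ^ 2 / 4) ≤ (14 / N - e) * L :=
      mul_le_mul h5 hL (by positivity) (le_trans (by positivity) h5)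
    have h7 : 9 / N * ((N : ℝ) ^ 2 / 4) = 9 * N / 4 := by
      field_simp
    have h8 : (1 + e) * (9 * N / 8) ≤ 2 * (9 * N / 8) :=
      mul_le_mul_of_nonneg_right (by linarith) (by positivity)
    nlinarith
  have h9 : L * (1 + 14 / N) ≤ (1 + e) * lB * (1 + 14 / N) :=
    mul_le_mul_of_nonneg_right hB (by positivity)
  have h10 : (1 + e) * (L + 9 * N / 8) ≤ (1 + e) * (lB * (1 + 14 / N)) := by
    calc _ ≤ _ := h3
      _ ≤ _ := h9
      _ = _ := by ring
  exact le_of_mul_le_mul_left h10 (by linarith)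

theorem pf_FC (hL1 : T_L1) (hL2 : T_L2) (hBL : T_BL) (hIM : T_IM) : T_FC := by
  refine ⟨Real.exp (-7), 16, Real.exp_pos _, by norm_num, ?_⟩
  intro N L Ω v hN hF hΩ hvol hfin hv hvc hvs hnear
  have hN1 : 1 ≤ N := by omega
  have hN3 : 3 ≤ N := by omega
  have hn0 : (0 : ℝ) < N := by exact_mod_cast hN1
  obtain ⟨χ, η, hχ, hη, hsq, hin, hout, hM⟩ := cut N hN1
  have hs : 0 < Real.sqrt N := Real.sqrt_pos.2 hn0
  have hs1 : 0 < 1 / Real.sqrt N := by positivity
  have hu : ContDiff ℝ (⊤ : ℕ∞) (fun x => χ x * v x) := hχ.mul hv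
  have hy : ContDiff ℝ (⊤ : ℕ∞) (fun x => η x * v x) := hη.mul hv
  have huc : HasCompactSupport (fun x => χ x * v x) := hvc.mul_left
  have hyc : HasCompactSupport (fun x => η x * v x) := hvc.mul_left
  have hv0 : ∀ x, x ∉ Ω → v x = 0 := fun x hx => by
    by_contra h
    exact hx (hvs (subset_tsupport v h))
  have hsq' : ∀ x, (χ x * v x) ^ 2 + (η x * v x) ^ 2 = v x ^ 2 := fun x => by
    have := hsq x
    calc (χ x * v x) ^ 2 + (η x * v x) ^ 2 = (χ x ^ 2 + η x ^ 2) * v x ^ 2 := by ring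
      _ = v x ^ 2 := by rw [this, one_mul]
  -- supports
  have hO : IsOpen (Ω \ closedBall (0 : E N) 1) := hΩ.sdiff isClosed_closedBall
  have htη : tsupport η ⊆ {x | 1 + 1 / Real.sqrt N ≤ ‖x‖} := by
    apply closure_minimal
    · intro x hx
      by_contra h1
      exact hx (hin x (le_of_not_ge h1)).2
    · exact isClosed_le continuous_const continuous_norm
  have hys : tsupport (fun x => η x * v x) ⊆ Ω \ closedBall (0 : E N) 1 := by
    intro x hx
    have h1 : x ∈ tsupport η := tsupport_mul_subset_left hx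
    have h2 : x ∈ tsupport v := tsupport_mul_subset_right hx
    refine ⟨hvs h2, ?_⟩
    have h3 := htη h1
    rw [mem_closedBall_zero_iff]
    simp only [Set.mem_ofPred_eq] at h3
    linarith
  -- the volume
  have hr : 0 < Real.exp (-7 / N) := Real.exp_pos _
  have hrN : Real.exp (-7 / N) ^ N = Real.exp (-7) := by
    rw [← Real.exp_nat_mul]
    congr 1
    field_simp
  have hball : volume (ball (0 : E N) (Real.exp (-7 / N))) =
      ENNReal.ofReal (Real.exp (-7)) * volume (ball (0 : E N) 1) := by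
    rw [Measure.addHaar_ball_of_pos volume (0 : E N) hr, finrank_euclideanSpace, Fintype.card_fin,
      hrN]
  have hvO : volume (Ω \ closedBall (0 : E N) 1) ≤
      volume (ball (0 : E N) (Real.exp (-7 / N))) := by
    have h1 : volume (Ω \ closedBall (0 : E N) 1) ≤ volume (Ω \ ball (0 : E N) 1) :=
      measure_mono (Set.sdiff_subset_sdiff_right ball_subset_closedBall)
    refine h1.trans ?_
    have h2 : volume (Ω \ ball (0 : E N) 1) ≠ ⊤ :=
      ((measure_mono Set.sdiff_subset).trans_lt (lt_top_iff_ne_top.2 hfin)).ne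
    have h3 : volume (ball (0 : E N) 1) ≠ ⊤ := measure_ball_lt_top.ne
    rw [hball]
    rw [← ENNReal.toReal_le_toReal h2 (ENNReal.mul_ne_top ENNReal.ofReal_ne_top h3),
      ENNReal.toReal_mul, ENNReal.toReal_ofReal (Real.exp_pos _).le]
    exact hvol
  -- the spectral bound
  have hSy : (L + 9 * N / 8) * (∫ x, (η x * v x) ^ 2) ≤
      ∫ x, ‖fderiv ℝ (fun x => η x * v x) x‖ ^ 2 := by
    by_cases hne : (Ω \ closedBall (0 : E N) 1).Nonempty
    · have h1 : lam N 1 (ball (0 : E N) 1) / Real.exp (-7 / N) ^ 2 ≤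
          lam N 1 (Ω \ closedBall (0 : E N) 1) := by
        apply le_csInf (Pool.Agent.H85.LNN.ne_all N 1 _ hN1 hO hne)
        intro c hc
        exact Pool.Agent.H85.LNN.fk_all N 1 _ c _ hN1 le_rfl hr hO hvO hc
      have h2 := Pool.Agent.H85.LNN.la_all N _ _ hN1 hy hyc hys
      have h3 := numb (lB := lam N 1 (ball (0 : E N) 1)) hN (hL1 N L hN3 hF) (hBL N L hN3 hF).1
      have h4 : 0 ≤ ∫ x, (η x * v x) ^ 2 := integral_nonneg fun x => sq_nonneg _
      exact (mul_le_mul_of_nonneg_right (h3.trans h1) h4).trans h2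
    · have h1 : ∀ x, η x * v x = 0 := by
        intro x
        by_contra h
        exact hne ⟨x, hys (subset_tsupport (fun x => η x * v x) h)⟩
      have h2 : (∫ x, (η x * v x) ^ 2) = 0 := by
        simp only [h1]
        simp
      rw [h2, mul_zero]
      exact integral_nonneg fun x => by positivity
  -- integrability
  have i1 := int_sq hu huc
  have i2 := int_sq hy hyc
  have j1 := int_grad hu huc
  have j2 := int_grad hy hyc
  have j4 := int_grad hv hvc
  have hSm : MeasurableSet {x : E N | 1 ≤ ‖x‖} :=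
    (isClosed_le continuous_const continuous_norm).measurableSet
  -- localization
  have hloc : (∫ x, ‖fderiv ℝ (fun x => χ x * v x) x‖ ^ 2) +
      (∫ x, ‖fderiv ℝ (fun x => η x * v x) x‖ ^ 2) ≤ (∫ x, ‖fderiv ℝ v x‖ ^ 2) +
        (N / 8 * (∫ x in {x : E N | 1 ≤ ‖x‖}, (χ x * v x) ^ 2) +
          N / 8 * ∫ x, (η x * v x) ^ 2) := by
    rw [← integral_indicator hSm]
    have k0 : Integrable (indicator {x : E N | 1 ≤ ‖x‖} fun x => (χ x * v x) ^ 2) :=
      i1.indicator hSm
    have k1 : Integrable (fun x => N / 8 * (indicator {x : E N | 1 ≤ ‖x‖}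
        (fun x => (χ x * v x) ^ 2) x) + N / 8 * (η x * v x) ^ 2) :=
      (k0.const_mul _).add (i2.const_mul _)
    rw [← integral_add j1 j2, ← integral_const_mul, ← integral_const_mul,
      ← integral_add (k0.const_mul _) (i2.const_mul _), ← integral_add j4 k1]
    apply integral_mono (j1.add j2) (j4.add k1)
    intro x
    have h1 := hIM N χ η v hχ hη hv hsq x
    show ‖fderiv ℝ (fun x => χ x * v x) x‖ ^ 2 + ‖fderiv ℝ (fun x => η x * v x) x‖ ^ 2 ≤
      ‖fderiv ℝ v x‖ ^ 2 + (N / 8 * (indicator {x : E N | 1 ≤ ‖x‖}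
        (fun x => (χ x * v x) ^ 2) x) + N / 8 * (η x * v x) ^ 2)
    rw [h1]
    have h2 : (‖fderiv ℝ χ x‖ ^ 2 + ‖fderiv ℝ η x‖ ^ 2) * v x ^ 2 ≤
        N / 8 * (indicator {x : E N | 1 ≤ ‖x‖}
          (fun x => (χ x * v x) ^ 2) x) + N / 8 * (η x * v x) ^ 2 := by
      by_cases hx : 1 ≤ ‖x‖
      · rw [indicator_of_mem (show x ∈ {x : E N | 1 ≤ ‖x‖} from hx), ← mul_add, hsq']
        exact mul_le_mul_of_nonneg_right (hM x) (sq_nonneg _)
      · have hxb : x ∈ ball (0 : E N) (1 + 1 / Real.sqrt N) := by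
          rw [mem_ball_zero_iff]
          linarith [lt_of_not_ge hx]
        have e1 : fderiv ℝ χ x = 0 := fderiv_zero isOpen_ball
          (fun z hz => (hin z (by rw [mem_ball_zero_iff] at hz; exact hz.le)).1) hxb
        have e2 : fderiv ℝ η x = 0 := fderiv_zero isOpen_ball
          (fun z hz => (hin z (by rw [mem_ball_zero_iff] at hz; exact hz.le)).2) hxb
        rw [e1, e2, indicator_of_notMem (show x ∉ {x : E N | 1 ≤ ‖x‖} from hx)]
        simp only [norm_zero, ne_eq, OfNat.ofNat_ne_zero, not_false_eq_true, zero_pow, add_zero,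
          zero_mul, mul_zero, zero_add]
        positivity
    linarith
  obtain ⟨δ, hδ, hδv⟩ := hnear
  refine ⟨fun x => χ x * v x, fun x => η x * v x, ⟨hu, ⟨δ, hδ, ?_⟩, ?_, ?_⟩, hy.continuous, hyc,
    ?_, hsq', ?_⟩
  · intro x hx
    show χ x * v x = 0
    rw [hδv x hx, mul_zero]
  · intro x hx
    show χ x * v x = 0
    rw [hout x hx, zero_mul]
  · intro x hx
    show χ x * v x = 0
    rw [hv0 x hx, mul_zero]
  · intro x hx
    show χ x * v x = v x
    rw [(hin x (by linarith)).1, one_mul]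
  · have hsum : ∫ x, v x ^ 2 = (∫ x, (χ x * v x) ^ 2) + ∫ x, (η x * v x) ^ 2 := by
      rw [← integral_add i1 i2]
      exact integral_congr_ae (ae_of_all _ fun x => (hsq' x).symm)
    unfold EL
    rw [hsum]
    linarith

end Pool.Agent.H64.LNN
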